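import Pool.Agent.Lib.MP_cc4643_co.Order

/-! 6-connected graphs contain spanning minimally rigid graphs (Lovasz, Yemini). -/

namespace Pool.Agent.Lib.MP_cc4643_co

open Finset

variable {V : Type*} [DecidableEq V] [Fintype V]

/-- vertex cuts have at least six vertices -/
def Cut6 (G : SimpleGraph V) : Prop := 7 ≤ Fintype.card V ∧
  ∀ Y Z : Finset V, Y.Nonempty → (∀ y ∈ Y, ∀ x, G.Adj y x → x ∈ Y ∨ x ∈ Z) →
    (∃ x, x ∉ Y ∧ x ∉ Z) → 6 ≤ Z.card

open Classical in
theorem Cut6.deg {G : SimpleGraph V} (h : Cut6 G) (v : V) :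
    6 ≤ (univ.filter (fun x => G.Adj v x)).card := by
  by_contra hcon
  have h1 : ({v} ∪ univ.filter (fun x => G.Adj v x)).card < Fintype.card V := by
    have := card_union_le {v} (univ.filter (fun x => G.Adj v x))
    rw [card_singleton] at this
    have := h.1
    omega
  obtain ⟨x, hx⟩ : ∃ x, x ∉ ({v} ∪ univ.filter (fun x => G.Adj v x)) := by
    by_contra hall
    push Not at hall
    have : ({v} ∪ univ.filter (fun x => G.Adj v x)) = univ := eq_univ_of_forall hall
    rw [this, card_univ] at h1
    omega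
  rw [mem_union, not_or] at hx
  exact hcon (h.2 {v} _ (singleton_nonempty v) (by
    intro y hy x hyx
    rw [mem_singleton] at hy
    subst hy
    exact Or.inr (mem_filter.2 ⟨mem_univ _, hyx⟩)) ⟨x, hx.1, hx.2⟩)

/-- the counting lemma -/
theorem count_cover {G : SimpleGraph V} (hG : Cut6 G) (C : Finset (Finset V))
    (h2 : ∀ X ∈ C, 2 ≤ X.card) (hu : ∀ X ∈ C, X ≠ univ)
    (hcov : ∀ x y, G.Adj x y → ∃ X ∈ C, x ∈ X ∧ y ∈ X) :
    2 * (Fintype.card V : ℚ) ≤ ∑ X ∈ C, (2 * (X.card : ℚ) - 3) := by
  classical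
  let Y : Finset V → Finset V := fun X => X.filter (fun v => ∀ X' ∈ C, v ∈ X' → X' = X)
  let Z : Finset V → Finset V := fun X => X.filter (fun v => ¬ ∀ X' ∈ C, v ∈ X' → X' = X)
  have hYZ : ∀ X, (Y X).card + (Z X).card = X.card := fun X =>
    card_filter_add_card_filter_not (s := X) _
  have hZ6 : ∀ X ∈ C, (Y X).Nonempty → 6 ≤ (Z X).card := by
    intro X hX hne
    refine hG.2 (Y X) (Z X) hne ?_ ?_
    · intro y hy x hyx
      obtain ⟨X', hX', hyX', hxX'⟩ := hcov y x hyx
      have h1 := (mem_filter.1 hy).2 X' hX' hyX'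
      subst h1
      by_cases h3 : ∀ X'' ∈ C, x ∈ X'' → X'' = X'
      · exact Or.inl (mem_filter.2 ⟨hxX', h3⟩)
      · exact Or.inr (mem_filter.2 ⟨hxX', h3⟩)
    · have : ∃ x, x ∉ X := by
        by_contra hall
        push Not at hall
        exact hu X hX (eq_univ_of_forall hall)
      obtain ⟨x, hx⟩ := this
      exact ⟨x, fun h => hx (mem_filter.1 h).1, fun h => hx (mem_filter.1 h).1⟩
  have hZ2 : ∀ X ∈ C, 2 ≤ (Z X).card := by
    intro X hX
    by_cases hne : (Y X).Nonempty
    · have := hZ6 X hX hne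
      omega
    · have h1 : (Y X).card = 0 := by
        rw [card_eq_zero]
        exact not_nonempty_iff_eq_empty.1 hne
      have := hYZ X
      have := h2 X hX
      omega
  let g : Finset V → V → ℚ := fun X v => if v ∈ Y X then 2 else 2 - 3 / ((Z X).card : ℚ)
  have hsum : ∀ X ∈ C, ∑ v ∈ X, g X v = 2 * (X.card : ℚ) - 3 := by
    intro X hX
    have h1 : ∑ v ∈ X, g X v = ∑ v ∈ Y X, g X v + ∑ v ∈ Z X, g X v :=
      (sum_filter_add_sum_filter_not X _ _).symm
    have h3 : ∑ v ∈ Y X, g X v = 2 * (Y X).card := by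
      rw [sum_congr rfl (fun v hv => show g X v = 2 from if_pos hv), sum_const, nsmul_eq_mul]
      ring
    have h4 : ∑ v ∈ Z X, g X v = (Z X).card * (2 - 3 / ((Z X).card : ℚ)) := by
      rw [sum_congr rfl (fun v hv => show g X v = 2 - 3 / ((Z X).card : ℚ) from if_neg (by
        intro hvY
        exact (mem_filter.1 hv).2 (mem_filter.1 hvY).2)), sum_const, nsmul_eq_mul]
    have h5 : ((Z X).card : ℚ) ≠ 0 := by
      have := hZ2 X hX
      have : (0 : ℚ) < (Z X).card := by exact_mod_cast (by omega : 0 < (Z X).card)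
      exact this.ne'
    have h6 : ((Y X).card : ℚ) + (Z X).card = X.card := by exact_mod_cast hYZ X
    rw [h1, h3, h4, ← h6]
    field_simp
    ring
  have hg : ∀ X ∈ C, ∀ v, 1 / 2 ≤ g X v := by
    intro X hX v
    have h3 : (2 : ℚ) ≤ (Z X).card := by exact_mod_cast hZ2 X hX
    simp only [g]
    split_ifs
    · norm_num
    · have : 3 / ((Z X).card : ℚ) ≤ 3 / 2 := by gcongr
      linarith
  rw [← sum_congr rfl hsum]
  have hswap : ∑ X ∈ C, ∑ v ∈ X, g X v = ∑ v ∈ (univ : Finset V), ∑ X ∈ C.filter (v ∈ ·), g X v := by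
    apply sum_comm'
    intro X v
    simp only [mem_filter, mem_univ, and_true]
  rw [hswap]
  have hmain : ∀ v : V, (2 : ℚ) ≤ ∑ X ∈ C.filter (v ∈ ·), g X v := by
    intro v
    have hnn : ∀ X ∈ C.filter (v ∈ ·), 0 ≤ g X v := fun X hX =>
      le_trans (by norm_num) (hg X (mem_filter.1 hX).1 v)
    by_cases hA : ∃ X ∈ C.filter (v ∈ ·), v ∈ Y X
    · obtain ⟨X, hX, hvX⟩ := hA
      refine le_trans ?_ (single_le_sum hnn hX)
      simp only [g]
      rw [if_pos hvX]
    · push Not at hA
      have hdeg := hG.deg v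
      have hcovN : univ.filter (fun x => G.Adj v x) ⊆
          (C.filter (v ∈ ·)).biUnion (fun X => X.erase v) := by
        intro x hx
        rw [mem_filter] at hx
        obtain ⟨X, hX, hvX, hxX⟩ := hcov v x hx.2
        rw [mem_biUnion]
        exact ⟨X, mem_filter.2 ⟨hX, hvX⟩, mem_erase.2 ⟨hx.2.ne', hxX⟩⟩
      by_cases hB : ∃ X ∈ C.filter (v ∈ ·), 6 ≤ (Z X).card
      · obtain ⟨X, hX, hX6⟩ := hB
        have hX' := mem_filter.1 hX
        obtain ⟨X', hX'C, hvX', hne⟩ : ∃ X' ∈ C, v ∈ X' ∧ X' ≠ X := by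
          by_contra hcon
          push Not at hcon
          exact hA X hX (mem_filter.2 ⟨hX'.2, hcon⟩)
        have h3 : ∑ W ∈ ({X, X'} : Finset (Finset V)), g W v ≤ ∑ W ∈ C.filter (v ∈ ·), g W v := by
          apply sum_le_sum_of_subset_of_nonneg
          · intro W hW
            rw [mem_insert, mem_singleton] at hW
            rcases hW with rfl | rfl
            · exact hX
            · exact mem_filter.2 ⟨hX'C, hvX'⟩
          · intro W hW _
            exact hnn W hW
        rw [sum_pair hne.symm] at h3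
        have h4 := hg X' hX'C v
        have h5 : 3 / 2 ≤ g X v := by
          have h6 : (6 : ℚ) ≤ (Z X).card := by exact_mod_cast hX6
          simp only [g]
          split_ifs
          · norm_num
          · have : 3 / ((Z X).card : ℚ) ≤ 3 / 6 := by gcongr
            linarith
        linarith
      · push Not at hB
        have h3 : ∀ X ∈ C.filter (v ∈ ·), ((X.erase v).card : ℚ) / 3 ≤ g X v := by
          intro X hX
          have hX' := mem_filter.1 hX
          have h4 := hB X hX
          have hY0 : (Y X).card = 0 := by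
            rw [card_eq_zero]
            apply not_nonempty_iff_eq_empty.1
            intro hne
            have := hZ6 X hX'.1 hne
            omega
          have h5 : (Z X).card = X.card := by have := hYZ X; omega
          have h6 := hZ2 X hX'.1
          rw [card_erase_of_mem hX'.2]
          simp only [g]
          rw [if_neg (hA X hX), h5]
          have h7 : X.card = 2 ∨ X.card = 3 ∨ X.card = 4 ∨ X.card = 5 := by omega
          rcases h7 with h7 | h7 | h7 | h7 <;> rw [h7] <;> norm_num
        have h4 : (6 : ℚ) ≤ ∑ X ∈ C.filter (v ∈ ·), ((X.erase v).card : ℚ) := by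
          have h5 := (card_le_card hcovN).trans card_biUnion_le
          exact_mod_cast hdeg.trans h5
        have h5 : ∑ X ∈ C.filter (v ∈ ·), ((X.erase v).card : ℚ) / 3 ≤
            ∑ X ∈ C.filter (v ∈ ·), g X v := sum_le_sum h3
        rw [← sum_div] at h5
        linarith
  calc 2 * (Fintype.card V : ℚ) = ∑ v ∈ (univ : Finset V), (2 : ℚ) := by
        rw [sum_const, nsmul_eq_mul, card_univ]; ring
    _ ≤ _ := sum_le_sum (fun v _ => hmain v)

/-- spanning minimally rigid subgraph through a given edge, avoiding two given edges -/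
theorem exists_laman {G : SimpleGraph V} (hG : Cut6 G) (E R : Finset (Sym2 V)) (hE : NL E)
    (hR : NL R) (hRc : R.card ≤ 2) (hcov : ∀ x y, G.Adj x y → s(x, y) ∈ E ∨ s(x, y) ∈ R)
    {e₀ : Sym2 V} (he₀ : e₀ ∈ E) :
    ∃ L ⊆ E, Sparse L ∧ L.card + 3 = 2 * Fintype.card V ∧ e₀ ∈ L := by
  classical
  have hne : (E.powerset.filter (fun F => Sparse F ∧ e₀ ∈ F)).Nonempty := by
    refine ⟨{e₀}, ?_⟩
    rw [mem_filter, mem_powerset]
    refine ⟨by simpa using he₀, ?_, mem_singleton_self _⟩
    intro X hX
    have : ins {e₀} X ≤ 1 := (card_filter_le _ _).trans (by simp)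
    omega
  obtain ⟨F, hF, hmax⟩ := exists_max_image _ card hne
  rw [mem_filter, mem_powerset] at hF
  obtain ⟨hFE, hFS, hF0⟩ := hF
  have hFN : NL F := fun e he => hE e (hFE he)
  refine ⟨F, hFE, hFS, ?_, hF0⟩
  have hinsF : ins F univ = F.card := by
    unfold ins
    rw [filter_true_of_mem]
    intro e _
    rw [mem_sym2_iff]
    intro a _
    exact mem_univ a
  have hFu := hFS univ (by rw [card_univ]; have := hG.1; omega)
  rw [hinsF, card_univ] at hFu
  -- maximal tight sets
  let T : Finset (Finset V) := univ.filter (fun X => Tight F X ∧ ∀ Y, Tight F Y → X ⊆ Y → X = Y)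
  have hT : ∀ X, Tight F X → ∃ Y ∈ T, X ⊆ Y := by
    intro X hX
    obtain ⟨Y, hY, hYm⟩ := exists_max_image (univ.filter (fun Y => Tight F Y ∧ X ⊆ Y)) card
      ⟨X, mem_filter.2 ⟨mem_univ _, hX, Subset.refl X⟩⟩
    rw [mem_filter] at hY
    refine ⟨Y, mem_filter.2 ⟨mem_univ _, hY.2.1, ?_⟩, hY.2.2⟩
    intro Y' hY' hYY'
    exact eq_of_subset_of_card_le hYY' (hYm Y' (mem_filter.2 ⟨mem_univ _, hY', hY.2.2.trans hYY'⟩))
  have hint : ∀ X ∈ T, ∀ Y ∈ T, X ≠ Y → (X ∩ Y).card ≤ 1 := by
    intro X hX Y hY hXY
    by_contra hcon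
    have h1 := (mem_filter.1 hX).2
    have h2 := (mem_filter.1 hY).2
    have h3 := h1.1.union hFS h2.1 (by omega)
    exact hXY ((h1.2 _ h3 subset_union_left).trans (h2.2 _ h3 subset_union_right).symm)
  have hpair : ∀ x y, s(x, y) ∈ F → Tight F {x, y} := by
    intro x y hxy
    have hne : x ≠ y := fun h => hFN _ hxy (Sym2.mk_isDiag_iff.2 h)
    have h1 : 1 ≤ ins F {x, y} := by
      unfold ins
      exact card_pos.2 ⟨s(x, y), mem_filter.2 ⟨hxy, by simp⟩⟩
    have h2 := hFS {x, y} (by rw [card_pair hne])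
    rw [card_pair hne] at h2
    refine ⟨by rw [card_pair hne], ?_⟩
    rw [card_pair hne]
    omega
  have hFsum : F.card = ∑ X ∈ T, ins F X := by
    have h1 : F = T.biUnion (fun X => F.filter (fun e => e ∈ X.sym2)) := by
      ext e
      rw [mem_biUnion]
      constructor
      · intro he
        induction e with
        | h x y =>
          obtain ⟨X, hX, hXs⟩ := hT _ (hpair x y he)
          exact ⟨X, hX, mem_filter.2 ⟨he, by simp [hXs (mem_insert_self x _),
            hXs (mem_insert_of_mem (mem_singleton_self y))]⟩⟩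
      · rintro ⟨X, _, he⟩
        exact (mem_filter.1 he).1
    conv_lhs => rw [h1]
    rw [card_biUnion]
    · rfl
    · intro X hX Y hY hXY
      rw [Function.onFun, disjoint_left]
      intro e he he'
      rw [mem_filter] at he he'
      have h4 := ins_small hFN (hint X hX Y hY hXY)
      unfold ins at h4
      rw [card_eq_zero, filter_eq_empty_iff] at h4
      apply h4 he.1
      rw [mem_sym2_iff]
      intro a ha
      exact mem_inter.2 ⟨mem_sym2_iff.1 he.2 a ha, mem_sym2_iff.1 he'.2 a ha⟩
  by_cases hun : univ ∈ T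
  · have h1 := (mem_filter.1 hun).2.1.2
    rw [hinsF, card_univ] at h1
    exact h1
  · exfalso
    let P : Finset (Finset V) := R.image Sym2.toFinset
    have hP2 : ∀ X ∈ P, X.card = 2 := by
      intro X hX
      obtain ⟨e, he, rfl⟩ := mem_image.1 hX
      exact Sym2.card_toFinset_of_not_isDiag e (hR e he)
    have hcount := count_cover hG (T ∪ P) (by
      intro X hX
      rcases mem_union.1 hX with hX | hX
      · exact (mem_filter.1 hX).2.1.1
      · exact (hP2 X hX).ge) (by
      intro X hX h
      rcases mem_union.1 hX with hX | hX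
      · exact hun (h ▸ hX)
      · have h1 := hP2 X hX
        rw [h, card_univ] at h1
        have := hG.1
        omega) (by
      intro x y hxy
      rcases hcov x y hxy with h | h
      · by_cases hxF : s(x, y) ∈ F
        · obtain ⟨X, hX, hXs⟩ := hT _ (hpair x y hxF)
          exact ⟨X, mem_union_left _ hX, hXs (mem_insert_self x _),
            hXs (mem_insert_of_mem (mem_singleton_self y))⟩
        · have h1 : ¬ Sparse (insert s(x, y) F) := by
            intro hS
            have h2 := hmax (insert s(x, y) F) (by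
              rw [mem_filter, mem_powerset]
              exact ⟨insert_subset h hFE, hS, mem_insert_of_mem hF0⟩)
            rw [card_insert_of_notMem hxF] at h2
            omega
          unfold Sparse at h1
          push Not at h1
          obtain ⟨X, hX2, hX3⟩ := h1
          have h4 := hFS X hX2
          have h5 : s(x, y) ∈ X.sym2 := by
            by_contra hn
            have h6 : ins (insert s(x, y) F) X = ins F X := by
              unfold ins
              rw [filter_insert, if_neg hn]
            omega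
          have h6 : ins (insert s(x, y) F) X ≤ ins F X + 1 := by
            unfold ins
            rw [filter_insert, if_pos h5]
            exact card_insert_le _ _
          obtain ⟨Y, hY, hXY⟩ := hT X ⟨hX2, by omega⟩
          have h7 := mem_sym2_iff.1 h5
          exact ⟨Y, mem_union_left _ hY, hXY (h7 x (Sym2.mem_mk_left x y)),
            hXY (h7 y (Sym2.mem_mk_right x y))⟩
      · exact ⟨_, mem_union_right _ (mem_image_of_mem _ h), by simp, by simp⟩)
    have h1 : ∑ X ∈ T ∪ P, (2 * (X.card : ℚ) - 3) ≤ ∑ X ∈ T, (2 * (X.card : ℚ) - 3) +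
        ∑ X ∈ P, (2 * (X.card : ℚ) - 3) := by
      rw [← sum_union_inter]
      have : 0 ≤ ∑ X ∈ T ∩ P, (2 * (X.card : ℚ) - 3) := by
        apply sum_nonneg
        intro X hX
        rw [hP2 X (mem_inter.1 hX).2]
        norm_num
      linarith
    have h2 : ∑ X ∈ P, (2 * (X.card : ℚ) - 3) ≤ 2 := by
      have h3 : ∑ X ∈ P, (2 * (X.card : ℚ) - 3) = P.card := by
        rw [sum_congr rfl (fun X hX => show 2 * (X.card : ℚ) - 3 = 1 by
          rw [hP2 X hX]; norm_num), sum_const, nsmul_eq_mul, mul_one]
      rw [h3]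
      have h4 : P.card ≤ 2 := card_image_le.trans hRc
      exact_mod_cast h4
    have h3 : ∑ X ∈ T, (2 * (X.card : ℚ) - 3) = F.card := by
      rw [hFsum, Nat.cast_sum]
      apply sum_congr rfl
      intro X hX
      have h4 := (mem_filter.1 hX).2.1.2
      have h5 : (ins F X : ℚ) + 3 = 2 * X.card := by exact_mod_cast h4
      linarith
    have h4 : (F.card : ℚ) + 3 ≤ 2 * Fintype.card V := by exact_mod_cast hFu
    linarith

end Pool.Agent.Lib.MP_cc4643_co
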