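import Pool.Agent.Lib.MP_cc4643_co.Sparse

/-! Orderings of minimally rigid graphs. -/

namespace Pool.Agent.Lib.MP_cc4643_co

open Finset

variable {V : Type*} [DecidableEq V]

/-- the order `p` with left and right neighbours `l`, `r` is good outside `a`, `b` -/
def Good (S : Finset V) (L : Finset (Sym2 V)) (a b : V) (p : V → ℝ) (l r : V → V) : Prop :=
  Set.InjOn p S ∧ p a < p b ∧ ∀ w ∈ S, w ≠ a → w ≠ b → l w ∈ S ∧ r w ∈ S ∧ s(w, l w) ∈ L ∧
    s(w, r w) ∈ L ∧ p (l w) < p w ∧ p w < p (r w) ∧ (l w ≠ a → l w ≠ b → r (l w) ≠ w)

theorem near_right (A : Finset ℝ) (c : ℝ) : ∃ x, c < x ∧ ∀ y ∈ A, c < y → x < y := by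
  induction A using Finset.induction_on with
  | empty => exact ⟨c + 1, by linarith, by simp⟩
  | insert a A _ ih =>
    obtain ⟨x, hx, h⟩ := ih
    by_cases ha : c < a
    · refine ⟨min x ((c + a) / 2), lt_min hx (by linarith), ?_⟩
      intro y hy hcy
      rcases mem_insert.1 hy with rfl | hy
      · exact lt_of_le_of_lt (min_le_right _ _) (by linarith)
      · exact lt_of_le_of_lt (min_le_left _ _) (h y hy hcy)
    · refine ⟨x, hx, ?_⟩
      intro y hy hcy
      rcases mem_insert.1 hy with rfl | hy
      · exact absurd hcy ha
      · exact h y hy hcy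

theorem near_left (A : Finset ℝ) (c : ℝ) : ∃ x, x < c ∧ ∀ y ∈ A, y < c → y < x := by
  induction A using Finset.induction_on with
  | empty => exact ⟨c - 1, by linarith, by simp⟩
  | insert a A _ ih =>
    obtain ⟨x, hx, h⟩ := ih
    by_cases ha : a < c
    · refine ⟨max x ((c + a) / 2), max_lt hx (by linarith), ?_⟩
      intro y hy hcy
      rcases mem_insert.1 hy with rfl | hy
      · exact lt_of_lt_of_le (by linarith) (le_max_right _ _)
      · exact lt_of_lt_of_le (h y hy hcy) (le_max_left _ _)
    · refine ⟨x, hx, ?_⟩
      intro y hy hcy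
      rcases mem_insert.1 hy with rfl | hy
      · exact absurd hcy ha
      · exact h y hy hcy

omit [DecidableEq V] in
/-- a position next to `v`, on the side of `z` -/
theorem exists_pos {S : Finset V} {p : V → ℝ} (hp : Set.InjOn p S) {v z : V} (hv : v ∈ S)
    (hz : z ∈ S) (hvz : v ≠ z) : ∃ x : ℝ, (∀ y ∈ S, p y ≠ x) ∧
      (∀ y ∈ S, y ≠ v → (p y < x ↔ p y < p v)) ∧
      ((p v < p z ∧ p v < x ∧ x < p z) ∨ (p z < p v ∧ p z < x ∧ x < p v)) := by
  rcases lt_or_gt_of_ne (fun h => hvz (hp hv hz h) : p v ≠ p z) with h | h
  · obtain ⟨x, hx, hx'⟩ := near_right (S.image p) (p v)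
    have hx2 : ∀ y ∈ S, p v < p y → x < p y := fun y hy h => hx' _ (mem_image_of_mem p hy) h
    refine ⟨x, ?_, ?_, Or.inl ⟨h, hx, hx2 z hz h⟩⟩
    · intro y hy hyx
      have := hx2 y hy (by rw [hyx]; exact hx)
      linarith
    · intro y hy hyv
      constructor
      · intro h1
        rcases lt_or_gt_of_ne (fun h => hyv (hp hy hv h) : p y ≠ p v) with h2 | h2
        · exact h2
        · have := hx2 y hy h2
          linarith
      · intro h1; linarith
  · obtain ⟨x, hx, hx'⟩ := near_left (S.image p) (p v)
    have hx2 : ∀ y ∈ S, p y < p v → p y < x := fun y hy h => hx' _ (mem_image_of_mem p hy) h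
    refine ⟨x, ?_, ?_, Or.inr ⟨h, hx2 z hz h, hx⟩⟩
    · intro y hy hyx
      have := hx2 y hy (by rw [hyx]; exact hx)
      linarith
    · intro y hy hyv
      constructor
      · intro h1; linarith
      · intro h1; exact hx2 y hy h1

/-- insertion of a vertex `w` with neighbours `u`, `v`, `z`, where the edge `uv` of the smaller
graph is not used by `v` -/
theorem Good.extend {S : Finset V} {L : Finset (Sym2 V)} {a b w u v z : V} {p : V → ℝ}
    {l r : V → V} (hw : w ∉ S) (hwa : w ≠ a) (hwb : w ≠ b) (ha : a ∈ S) (hb : b ∈ S)
    (hvS : v ∈ S) (hzS : z ∈ S)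
    (huv : u ≠ v) (huz : u ≠ z) (hvz : v ≠ z) (hu : s(w, u) ∈ L) (hv : s(w, v) ∈ L)
    (hz : s(w, z) ∈ L)
    (hg : Good S (insert s(u, v) (del L w)) a b p l r)
    (huse : v ≠ a → v ≠ b → l v ≠ u ∧ r v ≠ u) :
    ∃ p' l' r', Good (insert w S) L a b p' l' r' := by
  obtain ⟨hp, hab, hg⟩ := hg
  obtain ⟨x, hx1, hx2, hx3⟩ := exists_pos hp hvS hzS hvz
  have hne : ∀ y ∈ S, y ≠ w := fun y hy h => hw (h ▸ hy)
  have hdel : ∀ y y', y ≠ w → s(y, y') ∈ del L w → s(y, y') ∈ L := fun y y' _ h =>
    del_sub L w h
  let p' : V → ℝ := fun y => if y = w then x else p y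
  let l' : V → V := fun y => if y = w then (if p v < p z then v else z) else
    if y = u ∧ l u = v then w else l y
  let r' : V → V := fun y => if y = w then (if p v < p z then z else v) else
    if y = u ∧ r u = v then w else r y
  have hp'w : p' w = x := by simp [p']
  have hp'S : ∀ y ∈ S, p' y = p y := fun y hy => by simp [p', hne y hy]
  have hl'w : l' w = (if p v < p z then v else z) := by simp [l']
  have hr'w : r' w = (if p v < p z then z else v) := by simp [r']
  have hl'u : l u = v → u ≠ w → l' u = w := fun h h' => by simp [l', h, h']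
  have hr'u : r u = v → u ≠ w → r' u = w := fun h h' => by simp [r', h, h']
  have hl'S : ∀ y ∈ S, ¬ (y = u ∧ l u = v) → l' y = l y := fun y hy h => by
    simp only [l']
    rw [if_neg (hne y hy), if_neg h]
  have hr'S : ∀ y ∈ S, ¬ (y = u ∧ r u = v) → r' y = r y := fun y hy h => by
    simp only [r']
    rw [if_neg (hne y hy), if_neg h]
  refine ⟨p', l', r', ?_, ?_, ?_⟩
  · intro y hy y' hy' h
    rw [coe_insert] at hy hy'
    rcases hy with rfl | hy <;> rcases hy' with rfl | hy'
    · rfl
    · rw [hp'w, hp'S y' hy'] at h
      exact absurd h.symm (hx1 y' hy')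
    · rw [hp'w, hp'S y hy] at h
      exact absurd h (hx1 y hy)
    · rw [hp'S y hy, hp'S y' hy'] at h
      exact hp hy hy' h
  · rw [hp'S a ha, hp'S b hb]; exact hab
  · intro y hy hya hyb
    rcases mem_insert.1 hy with rfl | hyS
    · -- the new vertex
      rw [hl'w, hr'w]
      have hzS' : z ∈ insert y S := mem_insert_of_mem hzS
      have hvS' : v ∈ insert y S := mem_insert_of_mem hvS
      rcases hx3 with ⟨h1, h2, h3⟩ | ⟨h1, h2, h3⟩
      · rw [if_pos h1, if_pos h1, hp'w, hp'S v hvS, hp'S z hzS]
        refine ⟨hvS', hzS', hv, hz, h2, h3, ?_⟩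
        intro hva hvb
        rw [hr'S v hvS (fun h => huv h.1.symm)]
        exact hne _ (hg v hvS hva hvb).2.1
      · rw [if_neg (not_lt.2 h1.le), if_neg (not_lt.2 h1.le), hp'w, hp'S v hvS, hp'S z hzS]
        refine ⟨hzS', hvS', hz, hv, h2, h3, ?_⟩
        intro hza hzb
        rw [hr'S z hzS (fun h => huz h.1.symm)]
        exact hne _ (hg z hzS hza hzb).2.1
    · obtain ⟨g1, g2, g3, g4, g5, g6, g7⟩ := hg y hyS hya hyb
      have hyw := hne y hyS
      -- left part
      have hleft : l' y ∈ insert w S ∧ s(y, l' y) ∈ L ∧ p' (l' y) < p' y ∧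
          ((y = u ∧ l u = v ∧ l' y = w) ∨ (¬ (y = u ∧ l u = v) ∧ l' y = l y)) := by
        by_cases hc : y = u ∧ l u = v
        · obtain ⟨rfl, hc⟩ := hc
          rw [hl'u hc hyw, hp'w, hp'S y hyS]
          refine ⟨mem_insert_self _ _, ?_, ?_, Or.inl ⟨rfl, hc, rfl⟩⟩
          · rw [Sym2.eq_swap]; exact hu
          · rw [hc] at g5
            have h1 := (hx2 y hyS huv).not
            have h2 : ¬ p y < p v := not_lt.2 g5.le
            rcases lt_or_eq_of_le (not_lt.1 (h1.2 h2)) with h3 | h3
            · exact h3
            · exact absurd h3.symm (hx1 y hyS)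
        · rw [hl'S y hyS hc, hp'S _ g1, hp'S y hyS]
          refine ⟨mem_insert_of_mem g1, ?_, g5, Or.inr ⟨hc, rfl⟩⟩
          rcases mem_insert.1 g3 with h | h
          · rcases Sym2.eq_iff.1 h with ⟨h1, h2⟩ | ⟨h1, h2⟩
            · exact absurd ⟨h1, h1 ▸ h2⟩ hc
            · subst h1
              exact absurd h2 (huse hya hyb).1
          · exact del_sub L w h
      have hright : r' y ∈ insert w S ∧ s(y, r' y) ∈ L ∧ p' y < p' (r' y) := by
        by_cases hc : y = u ∧ r u = v
        · obtain ⟨rfl, hc⟩ := hc
          rw [hr'u hc hyw, hp'w, hp'S y hyS]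
          refine ⟨mem_insert_self _ _, ?_, ?_⟩
          · rw [Sym2.eq_swap]; exact hu
          · rw [hc] at g6
            exact (hx2 y hyS huv).2 g6
        · rw [hr'S y hyS hc, hp'S _ g2, hp'S y hyS]
          refine ⟨mem_insert_of_mem g2, ?_, g6⟩
          rcases mem_insert.1 g4 with h | h
          · rcases Sym2.eq_iff.1 h with ⟨h1, h2⟩ | ⟨h1, h2⟩
            · exact absurd ⟨h1, h1 ▸ h2⟩ hc
            · subst h1
              exact absurd h2 (huse hya hyb).2
          · exact del_sub L w h
      refine ⟨hleft.1, hright.1, hleft.2.1, hright.2.1, hleft.2.2.1, hright.2.2, ?_⟩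
      rcases hleft.2.2.2 with ⟨h1, h2, h3⟩ | ⟨h1, h3⟩
      · intro _ _
        rw [h3, hr'w, h1]
        split_ifs
        · exact fun h => huz h.symm
        · exact fun h => huv h.symm
      · intro hla hlb
        rw [h3] at hla hlb ⊢
        by_cases hc : l y = u ∧ r u = v
        · rw [hc.1, hr'u hc.2 (by rw [← hc.1]; exact hne _ g1)]
          exact fun h => hyw h.symm
        · rw [hr'S _ g1 hc]
          exact g7 hla hlb

/-- the ordering lemma -/
theorem laman_order : ∀ (n : ℕ) (S : Finset V) (L : Finset (Sym2 V)) (a b : V), S.card = n →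
    NL L → (∀ e ∈ L, e ∈ S.sym2) → Sparse L → L.card + 3 = 2 * S.card → a ∈ S → b ∈ S →
    a ≠ b → s(a, b) ∈ L → ∃ p l r, Good S L a b p l r := by
  intro n
  induction n with
  | zero =>
    intro S L a b hn _ _ _ _ ha
    rw [card_eq_zero] at hn
    subst hn
    simp at ha
  | succ n ih =>
    intro S L a b hn hN hS hL hc ha hb hab hab'
    by_cases h3 : 3 ≤ S.card
    · obtain ⟨w, hwS, hwa, hwb, hwd⟩ := exists_small hN hS hL hc h3 ha hb hab
      have hw2 := two_le_deg hS hL hc h3 hwS
      have hcn := card_nb hS w
      have hcS : (S.erase w).card = n := by rw [card_erase_of_mem hwS]; omega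
      have haS : a ∈ S.erase w := mem_erase.2 ⟨hwa.symm, ha⟩
      have hbS : b ∈ S.erase w := mem_erase.2 ⟨hwb.symm, hb⟩
      have hab2 : s(a, b) ∈ del L w := by
        unfold del
        rw [mem_filter]
        refine ⟨hab', ?_⟩
        rw [Sym2.mem_iff]
        rintro (h | h)
        · exact hwa h
        · exact hwb h
      have hN' : NL (del L w) := fun e he => hN e (del_sub L w he)
      have hL' : Sparse (del L w) := hL.mono (del_sub L w)
      have hcd := card_del L w
      have hnb : ∀ x ∈ nb S L w, x ∈ S.erase w ∧ s(w, x) ∈ L := by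
        intro x hx
        unfold nb at hx
        rw [mem_filter] at hx
        refine ⟨mem_erase.2 ⟨?_, hx.1⟩, hx.2⟩
        rintro rfl
        exact hN _ hx.2 (Sym2.mk_isDiag_iff.2 rfl)
      have hins : insert w (S.erase w) = S := insert_erase hwS
      rcases (show (st L w).card = 2 ∨ (st L w).card = 3 by omega) with hd | hd
      · -- degree two
        rw [hd, card_eq_two] at hcn
        obtain ⟨u, v, huv, hnbe⟩ := hcn
        obtain ⟨huS, hu⟩ := hnb u (by rw [hnbe]; simp)
        obtain ⟨hvS, hv⟩ := hnb v (by rw [hnbe]; simp)
        obtain ⟨p, l, r, hp, hpab, hg⟩ := ih (S.erase w) (del L w) a b hcS hN' (del_in hS w) hL'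
          (by omega) haS hbS hab hab2
        obtain ⟨x, hx1, _, hx3⟩ := exists_pos hp huS hvS huv
        have hne : ∀ y ∈ S.erase w, y ≠ w := fun y hy => (mem_erase.1 hy).1
        refine ⟨fun y => if y = w then x else p y,
          fun y => if y = w then (if p u < p v then u else v) else l y,
          fun y => if y = w then (if p u < p v then v else u) else r y, ?_, ?_, ?_⟩
        · rw [← hins]
          intro y hy y' hy' h
          rw [coe_insert] at hy hy'
          rcases hy with rfl | hy <;> rcases hy' with rfl | hy'
          · rfl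
          · simp only [if_true, if_neg (hne y' hy')] at h
            exact absurd h.symm (hx1 y' hy')
          · simp only [if_true, if_neg (hne y hy)] at h
            exact absurd h (hx1 y hy)
          · simp only [if_neg (hne y' hy'), if_neg (hne y hy)] at h
            exact hp hy hy' h
        · simp only [if_neg hwa.symm, if_neg hwb.symm]; exact hpab
        · intro y hy hya hyb
          by_cases hyw : y = w
          · subst hyw
            simp only [if_true]
            have huS' := (mem_erase.1 huS).2
            have hvS' := (mem_erase.1 hvS).2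
            rcases hx3 with ⟨h1, h2, h3⟩ | ⟨h1, h2, h3⟩
            · simp only [if_pos h1, if_neg (hne u huS), if_neg (hne v hvS)]
              refine ⟨huS', hvS', hu, hv, h2, h3, ?_⟩
              intro hua hub
              exact hne _ (hg u huS hua hub).2.1
            · simp only [if_neg (not_lt.2 h1.le), if_neg (hne u huS), if_neg (hne v hvS)]
              refine ⟨hvS', huS', hv, hu, h2, h3, ?_⟩
              intro hua hub
              exact hne _ (hg v hvS hua hub).2.1
          · obtain ⟨g1, g2, g3, g4, g5, g6, g7⟩ := hg y (mem_erase.2 ⟨hyw, hy⟩) hya hyb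
            simp only [if_neg hyw, if_neg (hne _ g1), if_neg (hne _ g2)]
            exact ⟨(mem_erase.1 g1).2, (mem_erase.1 g2).2, del_sub L w g3, del_sub L w g4, g5, g6,
              g7⟩
      · -- degree three
        rw [hd, card_eq_three] at hcn
        obtain ⟨u, v, z, huv, huz, hvz, hnbe⟩ := hcn
        obtain ⟨huS, hu⟩ := hnb u (by rw [hnbe]; simp)
        obtain ⟨hvS, hv⟩ := hnb v (by rw [hnbe]; simp)
        obtain ⟨hzS, hz⟩ := hnb z (by rw [hnbe]; simp)
        -- the step for a good pair
        have step : ∀ u v z : V, u ∈ S.erase w → v ∈ S.erase w → z ∈ S.erase w → s(w, u) ∈ L →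
            s(w, v) ∈ L → s(w, z) ∈ L → u ≠ v → u ≠ z → v ≠ z →
            (∀ X : Finset V, u ∈ X → v ∈ X → ins (del L w) X + 4 ≤ 2 * X.card) →
            ∃ p l r, Good S L a b p l r := by
          intro u v z huS hvS hzS hu hv hz huv huz hvz hpair
          have hnot : s(u, v) ∉ del L w := by
            intro h
            have h1 := hpair {u, v} (by simp) (by simp)
            rw [card_pair huv] at h1
            have h2 : ins (del L w) {u, v} = 0 := by omega
            unfold ins at h2
            rw [card_eq_zero, filter_eq_empty_iff] at h2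
            exact h2 h (by simp)
          have hSp : Sparse (insert s(u, v) (del L w)) := by
            intro X hX
            by_cases hX' : u ∈ X ∧ v ∈ X
            · have h1 := hpair X hX'.1 hX'.2
              have h2 : ins (insert s(u, v) (del L w)) X ≤ ins (del L w) X + 1 := by
                unfold ins
                rw [filter_insert]
                split_ifs
                · exact card_insert_le _ _
                · omega
              omega
            · have h2 : ins (insert s(u, v) (del L w)) X = ins (del L w) X := by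
                unfold ins
                rw [filter_insert, if_neg]
                simpa using hX'
              rw [h2]
              exact hL' X hX
          obtain ⟨p, l, r, hg⟩ := ih (S.erase w) (insert s(u, v) (del L w)) a b hcS (by
              intro e he
              rcases mem_insert.1 he with rfl | he
              · exact fun h => huv (Sym2.mk_isDiag_iff.1 h)
              · exact hN' e he) (by
              intro e he
              rcases mem_insert.1 he with rfl | he
              · simp [mem_erase.1 huS, mem_erase.1 hvS]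
              · exact del_in hS w e he) hSp (by
              rw [card_insert_of_notMem hnot]; omega) haS hbS hab (mem_insert_of_mem hab2)
          rw [← hins]
          by_cases huse : v ≠ a → v ≠ b → l v ≠ u ∧ r v ≠ u
          · exact hg.extend (by simp) hwa hwb haS hbS hvS hzS huv huz hvz hu hv hz huse
          · rw [Sym2.eq_swap] at hg
            refine hg.extend (by simp) hwa hwb haS hbS huS hzS huv.symm hvz huz hv hu hz ?_
            push Not at huse
            obtain ⟨hva, hvb, hv3⟩ := huse
            intro hua hub
            obtain ⟨_, _, hg'⟩ := hg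
            obtain ⟨_, _, _, _, g5, g6, g7⟩ := hg' v hvS hva hvb
            obtain ⟨_, _, _, _, k5, k6, k7⟩ := hg' u huS hua hub
            by_cases hlv : l v = u
            · -- p u < p v
              constructor
              · intro h
                rw [hlv] at g5; rw [h] at k5
                linarith
              · have := g7 (by rw [hlv]; exact hua) (by rw [hlv]; exact hub)
                rwa [hlv] at this
            · have hrv := hv3 hlv
              constructor
              · intro h
                have := k7 (by rw [h]; exact hva) (by rw [h]; exact hvb)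
                rw [h] at this
                exact this hrv
              · intro h
                rw [hrv] at g6; rw [h] at k6
                linarith
        rcases exists_pair hN hL huv huz hvz hu hv hz with h | h | h
        · exact step u v z huS hvS hzS hu hv hz huv huz hvz h
        · exact step v z u hvS hzS huS hv hz hu hvz huv.symm huz.symm h
        · exact step u z v huS hzS hvS hu hz hv huz huv hvz.symm h
    · -- two vertices
      have h2 : S = {a, b} := by
        symm
        apply eq_of_subset_of_card_le
        · intro x hx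
          rw [mem_insert, mem_singleton] at hx
          rcases hx with rfl | rfl
          · exact ha
          · exact hb
        · rw [card_pair hab]; omega
      refine ⟨fun y => if y = a then 0 else 1, id, id, ?_, ?_, ?_⟩
      · rw [h2]
        intro x hx y hy hxy
        simp only [coe_insert, coe_singleton, Set.mem_insert_iff, Set.mem_singleton_iff] at hx hy
        rcases hx with rfl | rfl <;> rcases hy with rfl | rfl
        · rfl
        · simp [hab.symm] at hxy
        · simp [hab.symm] at hxy
        · rfl
      · simp [hab.symm]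
      · intro w hw hwa hwb
        rw [h2, mem_insert, mem_singleton] at hw
        rcases hw with h | h
        · exact absurd h hwa
        · exact absurd h hwb

end Pool.Agent.Lib.MP_cc4643_co
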