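import Mathlib

/-! Sparse edge sets (`|E(X)| ≤ 2|X| - 3`) and orderings of minimally rigid graphs. -/

namespace Pool.Agent.Lib.MP_cc4643_co

open Finset

variable {V : Type*} [DecidableEq V]

/-- number of edges of `L` inside `X` -/
def ins (L : Finset (Sym2 V)) (X : Finset V) : ℕ := (L.filter (fun e => e ∈ X.sym2)).card

/-- no loops -/
def NL (L : Finset (Sym2 V)) : Prop := ∀ e ∈ L, ¬ e.IsDiag

/-- `(2,3)`-sparse edge sets -/
def Sparse (L : Finset (Sym2 V)) : Prop := ∀ X : Finset V, 2 ≤ X.card → ins L X + 3 ≤ 2 * X.card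

/-- tight vertex sets -/
def Tight (L : Finset (Sym2 V)) (X : Finset V) : Prop := 2 ≤ X.card ∧ ins L X + 3 = 2 * X.card

variable {L L' : Finset (Sym2 V)} {X Y Z : Finset V}

theorem ins_mono (h : L ⊆ L') (hX : X ⊆ Y) : ins L X ≤ ins L' Y := by
  unfold ins
  apply card_le_card
  intro e he
  rw [mem_filter] at he ⊢
  exact ⟨h he.1, sym2_mono hX he.2⟩

theorem ins_add (L : Finset (Sym2 V)) (X Y : Finset V) :
    ins L X + ins L Y ≤ ins L (X ∪ Y) + ins L (X ∩ Y) := by
  unfold ins
  rw [← card_union_add_card_inter]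
  apply Nat.add_le_add
  · apply card_le_card
    intro e he
    rw [mem_union, mem_filter, mem_filter] at he
    rw [mem_filter]
    rcases he with he | he
    · exact ⟨he.1, sym2_mono subset_union_left he.2⟩
    · exact ⟨he.1, sym2_mono subset_union_right he.2⟩
  · apply card_le_card
    intro e he
    rw [mem_inter, mem_filter, mem_filter] at he
    rw [mem_filter, mem_sym2_iff]
    refine ⟨he.1.1, fun a ha => mem_inter.2 ⟨?_, ?_⟩⟩
    · exact mem_sym2_iff.1 he.1.2 a ha
    · exact mem_sym2_iff.1 he.2.2 a ha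

theorem ins_small (hL : NL L) (hX : X.card ≤ 1) : ins L X = 0 := by
  unfold ins
  rw [card_eq_zero, filter_eq_empty_iff]
  intro e he hX'
  apply hL e he
  induction e with
  | h x y =>
    rw [Sym2.mk_isDiag_iff]
    have h1 := mem_sym2_iff.1 hX' x (Sym2.mem_mk_left x y)
    have h2 := mem_sym2_iff.1 hX' y (Sym2.mem_mk_right x y)
    exact card_le_one.1 hX x h1 y h2

theorem Sparse.mono (h : Sparse L') (hL : L ⊆ L') : Sparse L := fun X hX =>
  (Nat.add_le_add_right (ins_mono hL (Subset.refl X)) 3).trans (h X hX)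

theorem Tight.union (hL : Sparse L) (hX : Tight L X) (hY : Tight L Y) (h : 2 ≤ (X ∩ Y).card) :
    Tight L (X ∪ Y) := by
  have h1 := ins_add L X Y
  have h2 := hL _ h
  have h3 := card_union_add_card_inter X Y
  have h4 : 2 ≤ (X ∪ Y).card := hX.1.trans (card_le_card subset_union_left)
  have h5 := hL _ h4
  have h6 := hX.2
  have h7 := hY.2
  exact ⟨h4, by omega⟩

/-- neighbours -/
def nb (S : Finset V) (L : Finset (Sym2 V)) (w : V) : Finset V := S.filter (fun x => s(w, x) ∈ L)

/-- edges at `w` -/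
def st (L : Finset (Sym2 V)) (w : V) : Finset (Sym2 V) := L.filter (fun e => w ∈ e)

theorem card_nb {S : Finset V} (hS : ∀ e ∈ L, e ∈ S.sym2) (w : V) :
    (nb S L w).card = (st L w).card := by
  have h1 : st L w = (nb S L w).image (fun x => s(w, x)) := by
    ext e
    simp only [st, nb, mem_filter, mem_image]
    constructor
    · rintro ⟨he, hw⟩
      obtain ⟨y, rfl⟩ := Sym2.mem_iff_exists.1 hw
      exact ⟨y, ⟨mem_sym2_iff.1 (hS _ he) y (Sym2.mem_mk_right w y), he⟩, rfl⟩
    · rintro ⟨y, ⟨_, hy⟩, rfl⟩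
      exact ⟨hy, Sym2.mem_mk_left w y⟩
  rw [h1, card_image_of_injective]
  intro x y hxy
  exact Sym2.congr_right.1 hxy

theorem handshake {S : Finset V} (hN : NL L) (hS : ∀ e ∈ L, e ∈ S.sym2) :
    ∑ v ∈ S, (st L v).card = 2 * L.card := by
  have h1 := sum_card_bipartiteAbove_eq_sum_card_bipartiteBelow (s := S) (t := L)
    (fun (v : V) (e : Sym2 V) => v ∈ e)
  have h2 : ∀ e ∈ L, (bipartiteBelow (fun (v : V) (e : Sym2 V) => v ∈ e) S e).card = 2 := by
    intro e he
    have hd := hN e he
    have hs := hS e he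
    induction e with
    | h x y =>
      rw [Sym2.mk_isDiag_iff] at hd
      have : bipartiteBelow (fun (v : V) (e : Sym2 V) => v ∈ e) S s(x, y) = {x, y} := by
        ext v
        simp only [bipartiteBelow, mem_filter, Sym2.mem_iff, mem_insert, mem_singleton]
        constructor
        · exact fun h => h.2
        · intro h
          refine ⟨?_, h⟩
          rcases h with rfl | rfl
          · exact mem_sym2_iff.1 hs _ (Sym2.mem_mk_left _ _)
          · exact mem_sym2_iff.1 hs _ (Sym2.mem_mk_right _ _)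
      rw [this, card_pair hd]
  rw [sum_congr rfl h2, sum_const, smul_eq_mul] at h1
  have h3 : ∀ v, bipartiteAbove (fun (v : V) (e : Sym2 V) => v ∈ e) L v = st L v := fun v => rfl
  simp only [h3] at h1
  rw [h1, mul_comm]

/-- edges avoiding `w` -/
def del (L : Finset (Sym2 V)) (w : V) : Finset (Sym2 V) := L.filter (fun e => w ∉ e)

theorem del_sub (L : Finset (Sym2 V)) (w : V) : del L w ⊆ L := filter_subset _ _

theorem card_del (L : Finset (Sym2 V)) (w : V) : (del L w).card + (st L w).card = L.card := by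
  unfold del st
  rw [add_comm]
  exact card_filter_add_card_filter_not (s := L) (fun e => w ∈ e)

theorem del_in {S : Finset V} (hS : ∀ e ∈ L, e ∈ S.sym2) (w : V) :
    ∀ e ∈ del L w, e ∈ (S.erase w).sym2 := by
  intro e he
  unfold del at he
  rw [mem_filter] at he
  rw [mem_sym2_iff]
  intro a ha
  rw [mem_erase]
  refine ⟨?_, mem_sym2_iff.1 (hS e he.1) a ha⟩
  rintro rfl
  exact he.2 ha

theorem ins_all {S : Finset V} (hS : ∀ e ∈ L, e ∈ S.sym2) : ins L S = L.card := by
  unfold ins
  rw [filter_true_of_mem hS]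

/-- every vertex of a tight graph on at least three vertices has degree at least two -/
theorem two_le_deg {S : Finset V} (hS : ∀ e ∈ L, e ∈ S.sym2) (hL : Sparse L)
    (hc : L.card + 3 = 2 * S.card) (h3 : 3 ≤ S.card) {w : V} (hw : w ∈ S) :
    2 ≤ (st L w).card := by
  have h1 := (hL.mono (del_sub L w)) (S.erase w) (by rw [card_erase_of_mem hw]; omega)
  rw [ins_all (del_in hS w), card_erase_of_mem hw] at h1
  have h2 := card_del L w
  omega

/-- a vertex of small degree different from `a`, `b` -/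
theorem exists_small {S : Finset V} (hN : NL L) (hS : ∀ e ∈ L, e ∈ S.sym2) (hL : Sparse L)
    (hc : L.card + 3 = 2 * S.card) (h3 : 3 ≤ S.card) {a b : V} (ha : a ∈ S) (hb : b ∈ S)
    (hab : a ≠ b) : ∃ w ∈ S, w ≠ a ∧ w ≠ b ∧ (st L w).card ≤ 3 := by
  by_contra hcon
  push Not at hcon
  have h1 := handshake hN hS
  have h2 : ∑ v ∈ S, (st L v).card = (st L a).card + ((st L b).card +
      ∑ v ∈ (S.erase a).erase b, (st L v).card) := by
    rw [← add_sum_erase S _ ha, ← add_sum_erase (S.erase a) _ (mem_erase.2 ⟨hab.symm, hb⟩)]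
  have h4 : 4 * ((S.erase a).erase b).card ≤ ∑ v ∈ (S.erase a).erase b, (st L v).card := by
    rw [mul_comm, ← smul_eq_mul, ← sum_const]
    apply sum_le_sum
    intro v hv
    rw [mem_erase, mem_erase] at hv
    exact hcon v hv.2.2 hv.2.1 hv.1
  have h5 : ((S.erase a).erase b).card = S.card - 2 := by
    rw [card_erase_of_mem (mem_erase.2 ⟨hab.symm, hb⟩), card_erase_of_mem ha]
    omega
  have h6 := two_le_deg hS hL hc h3 ha
  have h7 := two_le_deg hS hL hc h3 hb
  omega

/-- the Henneberg pair -/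
theorem exists_pair {w u v z : V} (hN : NL L) (hL : Sparse L) (huv : u ≠ v) (huz : u ≠ z)
    (hvz : v ≠ z) (hu : s(w, u) ∈ L) (hv : s(w, v) ∈ L) (hz : s(w, z) ∈ L) :
    (∀ X : Finset V, u ∈ X → v ∈ X → ins (del L w) X + 4 ≤ 2 * X.card) ∨
    (∀ X : Finset V, v ∈ X → z ∈ X → ins (del L w) X + 4 ≤ 2 * X.card) ∨
    (∀ X : Finset V, u ∈ X → z ∈ X → ins (del L w) X + 4 ≤ 2 * X.card) := by
  by_contra hcon
  push Not at hcon
  obtain ⟨⟨X₁, hu1, hv1, h1⟩, ⟨X₂, hv2, hz2, h2⟩, ⟨X₃, hu3, hz3, h3⟩⟩ := hcon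
  have hL' : Sparse (del L w) := hL.mono (del_sub L w)
  have hN' : NL (del L w) := fun e he => hN e (del_sub L w he)
  have hc : ∀ (X : Finset V) (x y : V), x ∈ X → y ∈ X → x ≠ y → 2 ≤ X.card := fun X x y hx hy h =>
    one_lt_card.2 ⟨x, hx, y, hy, h⟩
  have hT1 : Tight (del L w) X₁ := by
    have := hL' X₁ (hc _ _ _ hu1 hv1 huv)
    exact ⟨hc _ _ _ hu1 hv1 huv, by omega⟩
  have hT2 : Tight (del L w) X₂ := by
    have := hL' X₂ (hc _ _ _ hv2 hz2 hvz)
    exact ⟨hc _ _ _ hv2 hz2 hvz, by omega⟩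
  have hT3 : Tight (del L w) X₃ := by
    have := hL' X₃ (hc _ _ _ hu3 hz3 huz)
    exact ⟨hc _ _ _ hu3 hz3 huz, by omega⟩
  -- no set containing all three is tight
  have hno : ∀ X : Finset V, u ∈ X → v ∈ X → z ∈ X → ins (del L w) X + 4 ≤ 2 * X.card := by
    intro X huX hvX hzX
    have hwu : w ≠ u := fun h => hN _ hu (by rw [h]; exact Sym2.mk_isDiag_iff.2 rfl)
    have hwv : w ≠ v := fun h => hN _ hv (by rw [h]; exact Sym2.mk_isDiag_iff.2 rfl)
    have hwz : w ≠ z := fun h => hN _ hz (by rw [h]; exact Sym2.mk_isDiag_iff.2 rfl)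
    have h4 : ins (del L w) X + 3 ≤ ins L (insert w X) := by
      have h5 : ({s(w, u), s(w, v), s(w, z)} : Finset (Sym2 V)).card = 3 := by
        rw [card_eq_three]
        refine ⟨_, _, _, ?_, ?_, ?_, rfl⟩
        · exact fun h => huv (Sym2.congr_right.1 h)
        · exact fun h => huz (Sym2.congr_right.1 h)
        · exact fun h => hvz (Sym2.congr_right.1 h)
      unfold ins
      rw [← h5, ← card_union_of_disjoint]
      · apply card_le_card
        intro e he
        rw [mem_union, mem_filter, mem_insert, mem_insert, mem_singleton] at he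
        rw [mem_filter]
        rcases he with ⟨he, heX⟩ | rfl | rfl | rfl
        · exact ⟨del_sub L w he, sym2_mono (subset_insert _ _) heX⟩
        · exact ⟨hu, by simp [huX]⟩
        · exact ⟨hv, by simp [hvX]⟩
        · exact ⟨hz, by simp [hzX]⟩
      · rw [disjoint_left]
        intro e he he'
        rw [mem_filter] at he
        have h6 := he.1
        unfold del at h6
        rw [mem_filter] at h6
        apply h6.2
        rw [mem_insert, mem_insert, mem_singleton] at he'
        rcases he' with rfl | rfl | rfl <;> exact Sym2.mem_mk_left _ _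
    have h5 := hL (insert w X) (hc _ _ _ (mem_insert_of_mem huX) (mem_insert_of_mem hvX) huv)
    have h6 := card_insert_le w X
    omega
  -- pairwise intersections
  have h12 : (X₁ ∩ X₂).card ≤ 1 := by
    by_contra h
    have h4 := (hT1.union hL' hT2 (by omega)).2
    have h5 := hno (X₁ ∪ X₂) (mem_union_left _ hu1) (mem_union_left _ hv1) (mem_union_right _ hz2)
    omega
  have h13 : (X₁ ∩ X₃).card ≤ 1 := by
    by_contra h
    have h4 := (hT1.union hL' hT3 (by omega)).2
    have h5 := hno (X₁ ∪ X₃) (mem_union_left _ hu1) (mem_union_left _ hv1) (mem_union_right _ hz3)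
    omega
  have h23 : (X₂ ∩ X₃).card ≤ 1 := by
    by_contra h
    have h4 := (hT2.union hL' hT3 (by omega)).2
    have h5 := hno (X₂ ∪ X₃) (mem_union_right _ hu3) (mem_union_left _ hv2) (mem_union_left _ hz2)
    omega
  have hd : ∀ X Y : Finset V, (X ∩ Y).card ≤ 1 →
      Disjoint ((del L w).filter (fun e => e ∈ X.sym2)) ((del L w).filter (fun e => e ∈ Y.sym2)) := by
    intro X Y hXY
    rw [disjoint_left]
    intro e he he'
    rw [mem_filter] at he he'
    have h4 := ins_small hN' hXY
    unfold ins at h4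
    rw [card_eq_zero, filter_eq_empty_iff] at h4
    apply h4 he.1
    rw [mem_sym2_iff]
    intro a ha
    exact mem_inter.2 ⟨mem_sym2_iff.1 he.2 a ha, mem_sym2_iff.1 he'.2 a ha⟩
  have hins : ins (del L w) X₁ + ins (del L w) X₂ + ins (del L w) X₃ ≤
      ins (del L w) (X₁ ∪ X₂ ∪ X₃) := by
    unfold ins
    rw [← card_union_of_disjoint (hd _ _ h12), ← card_union_of_disjoint]
    · apply card_le_card
      intro e he
      rw [mem_union, mem_union, mem_filter, mem_filter, mem_filter] at he
      rw [mem_filter]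
      rcases he with (he | he) | he
      · exact ⟨he.1, sym2_mono (subset_union_left.trans subset_union_left) he.2⟩
      · exact ⟨he.1, sym2_mono (subset_union_right.trans subset_union_left) he.2⟩
      · exact ⟨he.1, sym2_mono subset_union_right he.2⟩
    · rw [disjoint_union_left]
      exact ⟨hd _ _ h13, hd _ _ h23⟩
  have h4 := card_union_add_card_inter X₁ X₂
  have h5 := card_union_add_card_inter (X₁ ∪ X₂) X₃
  have h6 : 1 ≤ (X₁ ∩ X₂).card := card_pos.2 ⟨v, mem_inter.2 ⟨hv1, hv2⟩⟩
  have h7 : 2 ≤ ((X₁ ∪ X₂) ∩ X₃).card := hc _ u z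
    (mem_inter.2 ⟨mem_union_left _ hu1, hu3⟩) (mem_inter.2 ⟨mem_union_right _ hz2, hz3⟩) huz
  have h8 := hno (X₁ ∪ X₂ ∪ X₃) (mem_union_left _ (mem_union_left _ hu1))
    (mem_union_left _ (mem_union_left _ hv1)) (mem_union_right _ hz3)
  have h9 := hT1.2
  have h10 := hT2.2
  have h11 := hT3.2
  omega

end Pool.Agent.Lib.MP_cc4643_co
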